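import Pool.Agent.helper88.GR.Spec

/-!
# Project gr: module KNV (Koebe for injective functions without zeros)
-/

set_option autoImplicit false

open Complex Metric Set Filter Topology MeasureTheory
open MPS (om)
open PPS (pre TT fd)
open XPS (Df er dens tau)

noncomputable section

namespace GR

theorem KNV : KNV_stmt := by
  intro C r G hC hr hG hinj hz
  obtain ⟨hC1, hK⟩ := hC
  have hC0 : 0 < C := by linarith
  have h1 : ∀ w ∈ ball (0 : ℂ) r, ‖deriv G w‖ * (r - ‖w‖) ≤ C * ‖G w‖ := by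
    intro w hw
    have hw' : ‖w‖ < r := by simpa using hw
    have hρ : 0 < r - ‖w‖ := by linarith
    have hsub : ball w (r - ‖w‖) ⊆ ball (0 : ℂ) r := by
      apply ball_subset_ball'
      rw [dist_zero_right]
      linarith
    have h := hK G w (r - ‖w‖) hρ (hG.mono hsub) (hinj.mono hsub)
    have h0 : (0 : ℂ) ∉ ball (G w) ((r - ‖w‖) * ‖deriv G w‖ / C) := by
      intro h0
      obtain ⟨z, hz1, hz2⟩ := h h0
      exact hz z (hsub hz1) hz2
    rw [mem_ball, dist_comm, dist_zero_right, not_lt, div_le_iff₀ hC0] at h0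
    nlinarith
  refine ⟨h1, ?_⟩
  intro w hw w' hw'
  have hrC : r / (8 * C) ≤ r / 8 := by
    apply div_le_div_of_nonneg_left hr.le (by norm_num)
    linarith
  have hconv := (convex_ball (0 : ℂ) (r / (8 * C)))
  have hin : ∀ t ∈ Icc (0 : ℝ) 1, w + (t : ℂ) * (w' - w) ∈ ball (0 : ℂ) (r / (8 * C)) := by
    intro t ht
    have := hconv.add_smul_sub_mem hw hw' ht
    simpa [Complex.real_smul] using this
  have hin8 : ∀ t ∈ Icc (0 : ℝ) 1, ‖w + (t : ℂ) * (w' - w)‖ < r / 8 := by
    intro t ht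
    have := hin t ht
    rw [mem_ball, dist_zero_right] at this
    linarith
  have hinr : ∀ t ∈ Icc (0 : ℝ) 1, w + (t : ℂ) * (w' - w) ∈ ball (0 : ℂ) r := by
    intro t ht
    rw [mem_ball, dist_zero_right]
    have := hin8 t ht
    linarith
  have hder : ∀ t ∈ Icc (0 : ℝ) 1, HasDerivAt (fun s : ℝ => G (w + (s : ℂ) * (w' - w)))
      (deriv G (w + (t : ℂ) * (w' - w)) * (w' - w)) t := by
    intro t ht
    have e1 : HasDerivAt G (deriv G (w + (t : ℂ) * (w' - w))) (w + (t : ℂ) * (w' - w)) :=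
      (hG.differentiableAt (isOpen_ball.mem_nhds (hinr t ht))).hasDerivAt
    have e2 : HasDerivAt (fun s : ℝ => w + (s : ℂ) * (w' - w)) (w' - w) t := by
      have e3 : HasDerivAt (fun s : ℝ => (s : ℂ)) 1 t := Complex.ofRealCLM.hasDerivAt
      have e4 := (e3.mul_const (w' - w)).const_add w
      rwa [one_mul] at e4
    exact e1.comp_of_eq t e2 rfl
  have hd : ‖w' - w‖ ≤ 2 * (r / (8 * C)) := by
    have e1 := norm_sub_le w' w
    rw [mem_ball, dist_zero_right] at hw hw'
    linarith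
  have hgr := norm_le_gronwallBound_of_norm_deriv_right_le
    (f := fun s : ℝ => G (w + (s : ℂ) * (w' - w)))
    (f' := fun t : ℝ => deriv G (w + (t : ℂ) * (w' - w)) * (w' - w))
    (δ := ‖G w‖) (K := 2 / 7) (ε := 0) (a := 0) (b := 1)
    (fun t ht => (hder t ht).continuousAt.continuousWithinAt)
    (fun t ht => (hder t ⟨ht.1, ht.2.le⟩).hasDerivWithinAt)
    (by simp)
    (by
      intro t ht
      have ht' : t ∈ Icc (0 : ℝ) 1 := ⟨ht.1, ht.2.le⟩
      have e1 := h1 _ (hinr t ht')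
      have e2 := hin8 t ht'
      rw [norm_mul, add_zero]
      have e3 : ‖deriv G (w + (t : ℂ) * (w' - w))‖ * (7 * r / 8) ≤
          C * ‖G (w + (t : ℂ) * (w' - w))‖ := by
        refine le_trans ?_ e1
        apply mul_le_mul_of_nonneg_left _ (norm_nonneg _)
        linarith
      have e4 : ‖deriv G (w + (t : ℂ) * (w' - w))‖ ≤
          8 * C / (7 * r) * ‖G (w + (t : ℂ) * (w' - w))‖ := by
        rw [div_mul_eq_mul_div, le_div_iff₀ (by positivity)]
        nlinarith
      calc ‖deriv G (w + (t : ℂ) * (w' - w))‖ * ‖w' - w‖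
          ≤ (8 * C / (7 * r) * ‖G (w + (t : ℂ) * (w' - w))‖) * (2 * (r / (8 * C))) :=
            mul_le_mul e4 hd (norm_nonneg _) (by positivity)
        _ = 2 / 7 * ‖G (w + (t : ℂ) * (w' - w))‖ := by
            field_simp)
    1 ⟨zero_le_one, le_rfl⟩
  rw [gronwallBound_ε0] at hgr
  have e5 : w + ((1 : ℝ) : ℂ) * (w' - w) = w' := by
    rw [Complex.ofReal_one]; ring
  simp only [e5] at hgr
  have e6 : Real.exp (2 / 7 * (1 - 0)) ≤ 2 := by
    have h7 : Real.exp (2 / 7 * (1 - 0)) ≤ Real.exp (1 / 2) := by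
      apply Real.exp_le_exp.2; norm_num
    have h8 : Real.exp (1 / 2) * Real.exp (1 / 2) = Real.exp 1 := by
      rw [← Real.exp_add]; norm_num
    have h9 := Real.exp_one_lt_d9
    have h10 := Real.exp_pos (1 / 2)
    nlinarith
  calc ‖G w'‖ ≤ ‖G w‖ * Real.exp (2 / 7 * (1 - 0)) := hgr
    _ ≤ ‖G w‖ * 2 := mul_le_mul_of_nonneg_left e6 (norm_nonneg _)
    _ = 2 * ‖G w‖ := mul_comm _ _

end GR
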